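import Mathlib
import Pool.Agent.H.MP_8e4c55_nt.Main

namespace Pool.Agent.Results.MP_8e4c55_nt.Full

open Finset

/-- The block alphabet of all sums a_0 + a_1 β + ... + a_(k-1) β^(k-1) with a_i in A. -/
def Ak (β : ℂ) (A : Set ℤ) (k : ℕ) : Set ℂ :=
  {x | ∃ a : Fin k → ℤ, (∀ i, a i ∈ A) ∧ x = ∑ i : Fin k, (a i : ℂ) * β ^ (i : ℕ)}

/-- The sumset D + E. -/
def sumSet (D E : Set ℂ) : Set ℂ := {x | ∃ u ∈ D, ∃ v ∈ E, u + v = x}

/-- The map on sequences given by the local rule Φ: its value at j is Φ (u (j+t), ..., u (j-r)). -/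
def loc (r t : ℕ) (Φ : (Fin (r + t + 1) → ℂ) → ℂ) (u : ℤ → ℂ) (j : ℤ) : ℂ :=
  Φ fun i => u (j + t - (i : ℕ))

/-- Some digit set conversion in base γ from D to E is computable in parallel. -/
def ParallelConv (γ : ℂ) (D E : Set ℂ) : Prop :=
  ∃ (r t : ℕ) (Φ : (Fin (r + t + 1) → ℂ) → ℂ),
    (∀ w : Fin (r + t + 1) → ℂ, (∀ i, w i ∈ D) → Φ w ∈ E) ∧
    ∀ u : ℤ → ℂ, (∀ j, u j ∈ D) → (Function.support u).Finite →
      (Function.support (loc r t Φ u)).Finite ∧
        ∑ᶠ j : ℤ, loc r t Φ u j * γ ^ j = ∑ᶠ j : ℤ, u j * γ ^ j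

open Pool.Agent.H.MP_8e4c55_nt in
theorem result : ∃ β : ℂ, 1 < ‖β‖ ∧ ∃ k : ℕ, 1 ≤ k ∧
    ParallelConv (β ^ k) (sumSet (Ak β {0, 1} k) (Ak β {0, 1} k)) (Ak β {0, 1} k) := by
  obtain ⟨b, h1, hb⟩ := root
  have eA : Ak b {0, 1} 12 = AS b := by
    ext x
    constructor
    · rintro ⟨a, ha, rfl⟩
      refine ⟨fun i => if h : i < 12 then a ⟨i, h⟩ else 0, fun i => ?_, ?_⟩
      · by_cases h : i < 12
        · simpa [h] using ha ⟨i, h⟩
        · simp [h]
      · rw [Finset.sum_range]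
        exact sum_congr rfl fun i _ => by simp [i.2]
    · rintro ⟨a, ha, rfl⟩
      exact ⟨fun i => a i, fun i => by simpa using ha i, Finset.sum_range _⟩
  refine ⟨b, h1, 12, by norm_num, ?_⟩
  rw [eA]
  obtain ⟨t, t0, ht⟩ := key hb
  refine ⟨1, 1, fun w => w 1 - b ^ 12 * t (w 1) (w 0) + t (w 2) (w 1), fun w hw => ?_,
    fun u _ hu => ?_⟩
  · exact (ht (w 2) (w 1) (w 0) (hw 2) (hw 1)).resolve_right (not_not.2 (hw 0))
  · have hb0 : b ≠ 0 := by rintro rfl; norm_num at hb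
    have hT : (Function.support fun j : ℤ => t (u j) (u (j + 1))).Finite := by
      refine (hu.union (hu.image (· - 1))).subset fun j hj => ?_
      by_contra hc
      simp only [Set.mem_union, Function.mem_support, not_or, not_not, Set.mem_image,
        not_exists, not_and] at hc
      have h2 : u (j + 1) = 0 := by
        by_contra h
        exact hc.2 (j + 1) h (by ring)
      exact hj (by simp [hc.1, h2, t0])
    have e : loc 1 1 (fun w => w 1 - b ^ 12 * t (w 1) (w 0) + t (w 2) (w 1)) u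
        = fun j => u j - b ^ 12 * t (u j) (u (j + 1)) + t (u (j - 1)) (u (j - 1 + 1)) := by
      funext j
      have e2 : j + 1 - 2 = j - 1 := by ring
      simp [loc, e2]
    rw [e]
    exact tele (b ^ 12) (pow_ne_zero _ hb0) u (fun j => t (u j) (u (j + 1))) hu hT

end Pool.Agent.Results.MP_8e4c55_nt.Full
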